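import Pool.Agent.H13.P3.Id

/-!
# Bounds for the Fourier coefficients, and the sum over the denominators (helper97, for helper16's project P3)
-/

set_option autoImplicit false

namespace Pool.Agent.H97.P3

open Finset
open Pool.Agent.H14.VC
open Pool.Agent.H13.P3 (Bf mu KW cw)

section
variable (P : Finset ℕ) (hP : ∀ p ∈ P, p.Prime) (T : ℕ → ℤ → Prop) (g : ℝ) (hg : 1 ≤ g)
  (hT : ∀ p ∈ P, cT (T p) p 0 ≤ g) (x : ℕ → ℕ)

include hP hg hT

omit hg hT in
lemma qx_one : 1 ≤ Real.sqrt (qx P x : ℕ) := by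
  rw [Real.one_le_sqrt]
  exact_mod_cast qx_pos P hP x

lemma Cf_bd (L G0 H : ℝ) (B : ℕ) (hL : 0 < L) (hG0 : G0 = g ^ 2 + 3 * g) (hB : 4 * G0 ^ 2 ≤ B)
    (hH : ∑ p ∈ P, 1 / (p : ℝ) ≤ H) :
    |Cf P L g T x| ≤ Real.exp ((g + G0) * H) * (2 * G0) ^ B := by
  refine (far P hP T g hg hT x L G0 H B hL hG0 hB hH).trans ?_
  have h1 := qx_one P hP x
  have hG01 : 0 ≤ G0 := by rw [hG0]; nlinarith
  apply div_le_self _ h1
  positivity

lemma Bf_bd (L G0 H : ℝ) (B : ℕ) (hL : 0 < L) (hG0 : G0 = g ^ 2 + 3 * g) (hB : 4 * G0 ^ 2 ≤ B)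
    (hH : ∑ p ∈ P, 1 / (p : ℝ) ≤ H) :
    |Bf P L g T x| ≤ Real.exp ((g + G0) * H) * (2 * G0) ^ B := by
  have hG01 : 1 ≤ G0 := by rw [hG0]; nlinarith
  have hp0 : ∀ p ∈ P, (0 : ℝ) < p := fun p hp => by exact_mod_cast (hP p hp).pos
  have hH0 : 0 ≤ H := le_trans (sum_nonneg fun p hp => by have := hp0 p hp; positivity) hH
  have hb := BB_le P (th L) (fun p => LC (1, 0, 0) (T p) p (x p)) (fun p => LC (0, g, -1) (T p) p (x p))
    (fun p => LC (0, g ^ 2, 1) (T p) p (x p)) 1 (fun U _ => ⟨th_nonneg L U, th_le_one L hL U⟩)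
    (m0_nn P hP T g hg hT x) (m1_nn P hP T g hg hT x) (m2_nn P hP T g hg hT x)
  have hb0 := BB_nonneg P (th L) (fun p => LC (1, 0, 0) (T p) p (x p)) (fun p => LC (0, g, -1) (T p) p (x p))
    (fun p => LC (0, g ^ 2, 1) (T p) p (x p)) (fun U _ => th_nonneg L U)
    (m0_nn P hP T g hg hT x) (m1_nn P hP T g hg hT x) (m2_nn P hP T g hg hT x)
  have hJ0 : ∀ p ∈ P, 0 ≤ Jf g T x p := J_nn P hP T g hg hT x
  unfold Bf
  rw [abs_of_nonneg hb0]
  refine hb.trans ?_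
  rw [prod_congr rfl fun p _ => Jf_eq g T x p, one_pow, one_mul]
  have h4 : ∀ p ∈ P, Jf g T x p ≤
      Real.exp ((g + G0) * (1 / p)) * (if p ≤ B then 2 * G0 else 1) := by
    intro p hp
    have hpp := hp0 p hp
    have hb1 : (1 : ℝ) ≤ (if p ≤ B then 2 * G0 else 1) := by split_ifs <;> linarith
    have hexp1 : 1 ≤ Real.exp ((g + G0) * (1 / p)) := Real.one_le_exp (by positivity)
    by_cases h : x p = 0
    · have hJ := J_one P hP T g hg hT x p hp h
      rw [← hG0] at hJ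
      have e2 : Jf g T x p ≤ Real.exp ((g + G0) * (1 / p)) := by
        have h5 := Real.add_one_le_exp ((g + G0) * (1 / p))
        have e : G0 / p = G0 * (1 / p) := by ring
        have h6 : G0 * (1 / (p : ℝ)) ≤ (g + G0) * (1 / p) :=
          mul_le_mul_of_nonneg_right (by linarith) (by positivity)
        linarith [hJ.2]
      nlinarith
    · have hJ := J_two P hP T g hg hT x p hp h
      rw [← hG0] at hJ
      have e1 : G0 / p ≤ (if p ≤ B then 2 * G0 else 1) := by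
        have h1p : (1 : ℝ) ≤ p := by exact_mod_cast (hP p hp).one_lt.le
        split_ifs with hpB
        · have : G0 / p ≤ G0 := div_le_self (by linarith) h1p
          linarith
        · push Not at hpB
          have h5 : 4 * G0 ^ 2 ≤ p := hB.trans (by exact_mod_cast hpB.le)
          rw [div_le_one hpp]
          nlinarith
      nlinarith [hJ.2]
  refine (Finset.prod_le_prod (fun p hp => hJ0 p hp) h4).trans ?_
  rw [prod_mul_distrib]
  have e1 : ∏ p ∈ P, Real.exp ((g + G0) * (1 / p)) ≤ Real.exp ((g + G0) * H) := by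
    rw [← Real.exp_sum, ← mul_sum]
    apply Real.exp_le_exp.2
    exact mul_le_mul_of_nonneg_left hH (by linarith)
  have e2 : ∏ p ∈ P, (if p ≤ B then 2 * G0 else (1 : ℝ)) ≤ (2 * G0) ^ B := by
    rw [← prod_filter, prod_const]
    apply pow_le_pow_right₀ (by linarith)
    have hsub : P.filter (fun p => p ≤ B) ⊆ Icc 1 B := by
      intro p hp
      rw [mem_filter] at hp
      exact mem_Icc.2 ⟨(hP p hp.1).pos, hp.2⟩
    have := card_le_card hsub
    simpa using this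
  have e4 : 0 ≤ ∏ p ∈ P, (if p ≤ B then 2 * G0 else (1 : ℝ)) := prod_nonneg fun p _ => by
    split_ifs <;> linarith
  exact mul_le_mul e1 e2 e4 (Real.exp_pos _).le

end

lemma Bf_zero (P : Finset ℕ) (hP : ∀ p ∈ P, p.Prime) (T : ℕ → ℤ → Prop) (g : ℝ) (x : ℕ → ℕ) (z s : ℕ)
    (hz : 2 ≤ z) (hs : 1 ≤ s) (h : z ^ (2 * s + 1) < qx P x) :
    Bf P (s * Real.log z) g T x = 0 := by
  classical
  unfold Bf BB
  apply sum_eq_zero
  intro U hU
  apply sum_eq_zero
  intro V hV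
  by_contra hc
  have hc1 := left_ne_zero_of_mul hc
  have hc2 := right_ne_zero_of_mul hc
  have hU2 := th_ne z s hz hs U (left_ne_zero_of_mul hc1)
  have hV2 := th_ne z s hz hs V (right_ne_zero_of_mul hc1)
  have h1 : ∀ p ∈ P, x p ≠ 0 → p ∈ U ∨ p ∈ V := by
    intro p hp hx
    by_contra hc
    push Not at hc
    apply hc2
    apply prod_eq_zero hp
    unfold mm
    rw [if_neg hc.1, if_neg hc.2]
    simp only [LC_m0, if_neg hx]
  have h2 := qx_le P hP x U V ∅ (mem_powerset.1 hU) (mem_powerset.1 hV) (empty_subset _)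
    (fun p hp hx => by
      rcases h1 p hp hx with h | h
      · exact Or.inl h
      · exact Or.inr (Or.inl h))
  rw [prod_empty, mul_one] at h2
  have h3 : (∏ p ∈ U, p) * (∏ p ∈ V, p) ≤ z ^ (2 * s) := by
    calc (∏ p ∈ U, p) * (∏ p ∈ V, p) ≤ z ^ s * z ^ s := Nat.mul_le_mul hU2 hV2
      _ = _ := by rw [← pow_add]; congr 1; ring
  have h4 : z ^ (2 * s) ≤ z ^ (2 * s + 1) := Nat.pow_le_pow_right (by omega) (by omega)
  omega

/-- a sieve weight of level `D` has no frequency of larger denominator -/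
lemma mu_zero (T : ℕ → ℤ → Prop) (Q : Finset ℕ) (hQ : ∀ p ∈ Q, p.Prime) (l : Finset ℕ → ℝ) (x : ℕ → ℕ) (D : ℕ)
    (hl : ∀ U ⊆ Q, D < ∏ p ∈ U, p → l U = 0) (h : D < qx Q x) : mu T Q l x = 0 := by
  classical
  unfold mu KW cw
  apply sum_eq_zero
  intro U hU
  by_contra hc
  have hc1 := left_ne_zero_of_mul hc
  have hc2 := right_ne_zero_of_mul hc
  have hUs := mem_powerset.1 hU
  have h1 : ¬ D < ∏ p ∈ U, p := fun h => hc1 (hl U hUs h)
  have h2 : Q.filter (fun p => x p ≠ 0) ⊆ U := by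
    intro p hp
    rw [mem_filter] at hp
    by_contra hpU
    apply hc2
    apply prod_eq_zero hp.1
    rw [if_neg hpU, LC_m0, if_neg hp.2]
  have h3 : qx Q x ≤ ∏ p ∈ U, p := by
    unfold qx
    apply Finset.prod_le_prod_of_subset_of_one_le' h2
    intro p hp _
    exact (hQ p (hUs hp)).pos
  omega

lemma mu_bd (T : ℕ → ℤ → Prop) (Q : Finset ℕ) (hQ : ∀ p ∈ Q, p.Prime) (g : ℝ) (hg : 1 ≤ g)
    (hT : ∀ p ∈ Q, cT (T p) p 0 ≤ g) (l : Finset ℕ → ℝ) (x : ℕ → ℕ) (c k : ℝ)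
    (hl : ∀ U ⊆ Q, |l U| ≤ c) (hk : ∑ p ∈ Q, 1 / (p : ℝ) ≤ k) :
    |mu T Q l x| ≤ c * Real.exp (g * k) * g ^ (Q.filter (fun p => x p ≠ 0)).card / (qx Q x : ℕ) := by
  classical
  have hp0 : ∀ p ∈ Q, (0 : ℝ) < p := fun p hp => by exact_mod_cast (hQ p hp).pos
  have hc0 : 0 ≤ c := (abs_nonneg _).trans (hl ∅ (empty_subset _))
  have hbasic : ∀ p ∈ Q, |cT (T p) p (x p)| ≤ g := fun p hp => (cT_abs _ _ _).trans (hT p hp)
  have h1 : |mu T Q l x| ≤ ∑ U ∈ Q.powerset, c * ((∏ p ∈ U, g / (p : ℝ)) *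
      ∏ p ∈ Q \ U, (if x p = 0 then (1 : ℝ) else 0)) := by
    unfold mu KW cw
    refine (abs_sum_le_sum_abs _ _).trans ?_
    apply sum_le_sum
    intro U hU
    have hUs := mem_powerset.1 hU
    rw [abs_mul, abs_prod]
    apply mul_le_mul (hl U hUs) _ (prod_nonneg fun p _ => abs_nonneg _) hc0
    rw [← prod_sdiff hUs, mul_comm]
    apply mul_le_mul
    · apply Finset.prod_le_prod (fun p _ => abs_nonneg _)
      intro p hp
      rw [if_pos hp, LC_t, abs_div, abs_of_pos (hp0 p (hUs hp))]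
      exact div_le_div_of_nonneg_right (hbasic p (hUs hp)) (hp0 p (hUs hp)).le
    · apply Finset.prod_le_prod (fun p _ => abs_nonneg _)
      intro p hp
      rw [if_neg (mem_sdiff.1 hp).2, LC_m0]
      split_ifs <;> simp
    · exact prod_nonneg fun p _ => abs_nonneg _
    · exact prod_nonneg fun p hp => div_nonneg (by linarith) (Nat.cast_nonneg _)
  refine h1.trans ?_
  rw [← mul_sum, ← Finset.prod_add (fun p : ℕ => g / (p : ℝ)) (fun p => if x p = 0 then (1 : ℝ) else 0) Q]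
  have h2 : ∀ p ∈ Q, g / (p : ℝ) + (if x p = 0 then (1 : ℝ) else 0) ≤
      Real.exp (g * (1 / p)) * (if x p ≠ 0 then g / (p : ℝ) else 1) := by
    intro p hp
    have hpp := hp0 p hp
    have h3 := Real.add_one_le_exp (g * (1 / (p : ℝ)))
    have e : g * (1 / (p : ℝ)) = g / p := by ring
    have hgp : 0 ≤ g / (p : ℝ) := by positivity
    by_cases h : x p = 0
    · rw [if_pos h, if_neg (not_not.2 h), mul_one]
      linarith
    · rw [if_neg h, if_pos h, add_zero]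
      rw [e] at h3 ⊢
      nlinarith
  have h3 : ∏ p ∈ Q, (g / (p : ℝ) + (if x p = 0 then (1 : ℝ) else 0)) ≤
      Real.exp (g * k) * (g ^ (Q.filter (fun p => x p ≠ 0)).card / (qx Q x : ℕ)) := by
    refine (Finset.prod_le_prod (fun p hp => ?_) h2).trans ?_
    · have := hp0 p hp
      have : 0 ≤ g / (p : ℝ) := by positivity
      split_ifs <;> linarith
    rw [prod_mul_distrib]
    apply mul_le_mul
    · rw [← Real.exp_sum, ← mul_sum]
      apply Real.exp_le_exp.2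
      exact mul_le_mul_of_nonneg_left hk (by linarith)
    · rw [← prod_filter, prod_div_distrib, prod_const]
      unfold qx
      push_cast
      exact le_rfl
    · apply prod_nonneg
      intro p hp
      have := hp0 p hp
      have : 0 ≤ g / (p : ℝ) := by positivity
      split_ifs
      · exact this
      · norm_num
    · exact (Real.exp_pos _).le
  calc c * ∏ p ∈ Q, (g / (p : ℝ) + (if x p = 0 then (1 : ℝ) else 0)) ≤
      c * (Real.exp (g * k) * (g ^ (Q.filter (fun p => x p ≠ 0)).card / (qx Q x : ℕ))) :=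
        mul_le_mul_of_nonneg_left h3 hc0
    _ = _ := by ring



/-- the coefficient of a sieve weight of level `D ≤ z ^ k` on primes above `z` -/
lemma mu_bound (T : ℕ → ℤ → Prop) (Q : Finset ℕ) (l : Finset ℕ → ℝ) (z D k g : ℕ) (hz : 2 ≤ z) (hg : 1 ≤ g)
    (hQ : ∀ p ∈ Q, p.Prime ∧ z < p) (hs : ∑ p ∈ Q, 1 / (p : ℝ) ≤ k) (hT : ∀ p ∈ Q, cT (T p) p 0 ≤ g)
    (hl : ∀ U ⊆ Q, |l U| ≤ k) (hlD : ∀ U ⊆ Q, D < ∏ p ∈ U, p → l U = 0) (hD : D ≤ z ^ k) (x : ℕ → ℕ) :
    |mu T Q l x| ≤ k * (g : ℝ) ^ k * Real.exp (g * k) / (qx Q x : ℕ) ∧ (D < qx Q x → mu T Q l x = 0) := by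
  have hQ' : ∀ p ∈ Q, p.Prime := fun p hp => (hQ p hp).1
  have hgR : (1 : ℝ) ≤ g := by exact_mod_cast hg
  have hzero : D < qx Q x → mu T Q l x = 0 := mu_zero T Q hQ' l x D hlD
  refine ⟨?_, hzero⟩
  have hq0 : (0 : ℝ) < (qx Q x : ℕ) := by exact_mod_cast qx_pos Q hQ' x
  by_cases hDx : D < qx Q x
  · rw [hzero hDx, abs_zero]
    positivity
  push Not at hDx
  have hcard : (Q.filter (fun p => x p ≠ 0)).card ≤ k := by
    have h1 : z ^ (Q.filter (fun p => x p ≠ 0)).card ≤ qx Q x := by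
      unfold qx
      rw [← prod_const]
      apply Finset.prod_le_prod'
      intro p hp
      exact (hQ p (mem_filter.1 hp).1).2.le
    exact (Nat.pow_le_pow_iff_right (by omega)).1 (h1.trans (hDx.trans hD))
  refine (mu_bd T Q hQ' g hgR hT l x k k hl hs).trans ?_
  apply div_le_div_of_nonneg_right _ hq0.le
  have h2 : (g : ℝ) ^ (Q.filter (fun p => x p ≠ 0)).card ≤ (g : ℝ) ^ k := pow_le_pow_right₀ hgR hcard
  calc (k : ℝ) * Real.exp (g * k) * g ^ (Q.filter (fun p => x p ≠ 0)).card ≤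
      k * Real.exp (g * k) * g ^ k := mul_le_mul_of_nonneg_left h2 (by positivity)
    _ = _ := by ring

lemma qx_union (P Q : Finset ℕ) (hd : Disjoint P Q) (x : ℕ → ℕ) : qx (P ∪ Q) x = qx P x * qx Q x := by
  classical
  unfold qx
  rw [filter_union, prod_union]
  exact disjoint_filter_filter hd

lemma block (A P Q : Finset ℕ) (hP : ∀ p ∈ P, p.Prime) (hQ : ∀ p ∈ Q, p.Prime) (hd : Disjoint P Q)
    (M R : ℕ) (hA : A ⊆ Icc 1 M) (hR : 1 ≤ R) (Y : ℕ) (hY : 1 ≤ Y)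
    (X : Finset (ℕ → ℕ)) (hX1 : ∀ x ∈ X, ∀ p ∈ P ∪ Q, x p < p) (hX2 : ∀ x ∈ X, ∀ p, p ∉ P ∪ Q → x p = 0)
    (hXP : ∀ x ∈ X, qx P x ≤ R) (hXQ : ∀ x ∈ X, qx Q x ≤ Y) :
    ∑ x ∈ X, En A (P ∪ Q) x ≤ 6 * ((M : ℝ) + ((R : ℝ) * Y) ^ 2) * A.card := by
  have hPQ : ∀ p ∈ P ∪ Q, p.Prime := by
    intro p hp
    rcases mem_union.1 hp with h | h
    · exact hP p h
    · exact hQ p h
  have h := large A (P ∪ Q) hPQ M (R * Y) hA (Nat.mul_pos hR hY) X hX1 hX2 (fun x hx => by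
    rw [qx_union P Q hd x]
    exact Nat.mul_le_mul (hXP x hx) (hXQ x hx))
  push_cast at h
  exact h

lemma En_nonneg (A P : Finset ℕ) (x : ℕ → ℕ) : 0 ≤ En A P x := by
  unfold En
  positivity

/-- summation by parts over the denominator -/
lemma parts (A P Q : Finset ℕ) (hP : ∀ p ∈ P, p.Prime) (hQ : ∀ p ∈ Q, p.Prime) (hd : Disjoint P Q)
    (M R z : ℕ) (hA : A ⊆ Icc 1 M) (hR : 1 ≤ R) (hz : 1 ≤ z) (X : Finset (ℕ → ℕ))
    (hX1 : ∀ x ∈ X, ∀ p ∈ P ∪ Q, x p < p) (hX2 : ∀ x ∈ X, ∀ p, p ∉ P ∪ Q → x p = 0)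
    (hXP : ∀ x ∈ X, qx P x ≤ R) (hXQ : ∀ x ∈ X, z < qx Q x) (n : ℕ) :
    ∑ x ∈ X.filter (fun x => qx Q x ≤ z + n), En A (P ∪ Q) x / (qx Q x : ℕ) ≤
      (∑ x ∈ X.filter (fun x => qx Q x ≤ z + n), En A (P ∪ Q) x) / (z + n + 1) +
      6 * ((M : ℝ) * (1 / (z + 1) - 1 / (z + n + 1)) + (R : ℝ) ^ 2 * n) * A.card := by
  classical
  have hz0 : (0 : ℝ) < z := by exact_mod_cast hz
  have hAc : (0 : ℝ) ≤ A.card := Nat.cast_nonneg _
  induction n with
  | zero =>
    have hXe : X.filter (fun x => qx Q x ≤ z + 0) = ∅ := by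
      rw [eq_empty_iff_forall_notMem]
      intro x hx
      rw [mem_filter] at hx
      have := hXQ x hx.1
      omega
    rw [hXe]
    simp
  | succ n ih =>
    have hsplit : ∀ f : (ℕ → ℕ) → ℝ, ∑ x ∈ X.filter (fun x => qx Q x ≤ z + (n + 1)), f x =
        ∑ x ∈ X.filter (fun x => qx Q x ≤ z + n), f x + ∑ x ∈ X.filter (fun x => qx Q x = z + n + 1), f x := by
      intro f
      rw [← sum_union]
      · apply sum_congr _ fun _ _ => rfl
        ext x
        simp only [mem_filter, mem_union]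
        constructor
        · rintro ⟨h1, h2⟩
          rcases Nat.lt_or_ge (z + n) (qx Q x) with h | h
          · right; exact ⟨h1, by omega⟩
          · left; exact ⟨h1, h⟩
        · rintro (⟨h1, h2⟩ | ⟨h1, h2⟩)
          · exact ⟨h1, by omega⟩
          · exact ⟨h1, by omega⟩
      · rw [disjoint_left]
        intro x h1 h2
        rw [mem_filter] at h1 h2
        omega
    have hb := block A P Q hP hQ hd M R hA hR (z + (n + 1)) (by omega)
      (X.filter (fun x => qx Q x ≤ z + (n + 1))) (fun x hx => hX1 x (mem_filter.1 hx).1)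
      (fun x hx => hX2 x (mem_filter.1 hx).1) (fun x hx => hXP x (mem_filter.1 hx).1)
      (fun x hx => (mem_filter.1 hx).2)
    have hS := hsplit (fun x => En A (P ∪ Q) x)
    rw [hsplit (fun x => En A (P ∪ Q) x / (qx Q x : ℕ))]
    have h1 : ∑ x ∈ X.filter (fun x => qx Q x = z + n + 1), En A (P ∪ Q) x / ((qx Q x : ℕ) : ℝ) =
        (∑ x ∈ X.filter (fun x => qx Q x = z + n + 1), En A (P ∪ Q) x) / (z + n + 1) := by
      rw [sum_div]
      apply sum_congr rfl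
      intro x hx
      rw [(mem_filter.1 hx).2]
      push_cast
      rfl
    rw [h1]
    set S1 := ∑ x ∈ X.filter (fun x => qx Q x ≤ z + n), En A (P ∪ Q) x with hS1
    set S2 := ∑ x ∈ X.filter (fun x => qx Q x = z + n + 1), En A (P ∪ Q) x with hS2
    set S3 := ∑ x ∈ X.filter (fun x => qx Q x ≤ z + (n + 1)), En A (P ∪ Q) x with hS3
    have hn1 : (0 : ℝ) < (z : ℝ) + n + 1 := by positivity
    have hn2 : (0 : ℝ) < (z : ℝ) + n + 2 := by positivity
    have h2 : S1 / (z + n + 1) + S2 / (z + n + 1) = S3 / (z + n + 2) + S3 / ((z + n + 1) * (z + n + 2)) := by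
      rw [hS]
      field_simp
      ring
    have h3 : S3 / (((z : ℝ) + n + 1) * (z + n + 2)) ≤
        6 * ((M : ℝ) * (1 / (z + n + 1) - 1 / (z + n + 2)) + (R : ℝ) ^ 2) * A.card := by
      have h4 : S3 / (((z : ℝ) + n + 1) * (z + n + 2)) ≤
          6 * ((M : ℝ) + ((R : ℝ) * (z + (n + 1) : ℕ)) ^ 2) * A.card / (((z : ℝ) + n + 1) * (z + n + 2)) :=
        div_le_div_of_nonneg_right hb (by positivity)
      refine h4.trans ?_
      rw [div_le_iff₀ (by positivity)]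
      have e : 6 * ((M : ℝ) * (1 / (z + n + 1) - 1 / (z + n + 2)) + (R : ℝ) ^ 2) * A.card *
          (((z : ℝ) + n + 1) * (z + n + 2)) =
          6 * ((M : ℝ) + (R : ℝ) ^ 2 * ((z + n + 1) * (z + n + 2))) * A.card := by
        field_simp
        ring
      rw [e]
      apply mul_le_mul_of_nonneg_right _ hAc
      push_cast
      have h5 : ((R : ℝ) * (z + (n + 1))) ^ 2 ≤ (R : ℝ) ^ 2 * ((z + n + 1) * (z + n + 2)) := by
        rw [mul_pow]
        apply mul_le_mul_of_nonneg_left _ (by positivity)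
        nlinarith
      linarith
    have h6 : (((n + 1 : ℕ) : ℝ)) = n + 1 := by push_cast; ring
    rw [h6]
    have e2 : (z : ℝ) + (n + 1) + 1 = z + n + 2 := by ring
    rw [e2]
    calc _ ≤ (S1 / (z + n + 1) + 6 * ((M : ℝ) * (1 / (z + 1) - 1 / (z + n + 1)) + (R : ℝ) ^ 2 * n) * A.card) +
          S2 / (z + n + 1) := by linarith [ih]
      _ = S3 / (z + n + 2) + (S3 / ((z + n + 1) * (z + n + 2)) +
          6 * ((M : ℝ) * (1 / (z + 1) - 1 / (z + n + 1)) + (R : ℝ) ^ 2 * n) * A.card) := by linarith [h2]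
      _ ≤ S3 / (z + n + 2) + (6 * ((M : ℝ) * (1 / (z + n + 1) - 1 / (z + n + 2)) + (R : ℝ) ^ 2) * A.card +
          6 * ((M : ℝ) * (1 / (z + 1) - 1 / (z + n + 1)) + (R : ℝ) ^ 2 * n) * A.card) := by linarith [h3]
      _ = _ := by ring

/-- the energies weighted by the reciprocal of the denominator at the large primes -/
lemma sum_bound (A P Q : Finset ℕ) (hP : ∀ p ∈ P, p.Prime) (hQ : ∀ p ∈ Q, p.Prime) (hPQ : Disjoint P Q)
    (M R D z : ℕ) (hz : 1 ≤ z) (hR : 1 ≤ R) (hA : A ⊆ Icc 1 M) (X : Finset (ℕ → ℕ))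
    (hX1 : ∀ x ∈ X, ∀ p ∈ P ∪ Q, x p < p) (hX2 : ∀ x ∈ X, ∀ p, p ∉ P ∪ Q → x p = 0) :
    ∑ x ∈ X.filter (fun x => qx P x ≤ R ∧ z < qx Q x ∧ qx Q x ≤ D), En A (P ∪ Q) x / (qx Q x : ℕ) ≤
      12 * A.card * ((M : ℝ) / z + (R : ℝ) ^ 2 * D) := by
  classical
  have hz0 : (0 : ℝ) < z := by exact_mod_cast hz
  have hAc : (0 : ℝ) ≤ A.card := Nat.cast_nonneg _
  rcases Nat.lt_or_ge z D with hzD | hzD
  swap
  · have hXe : X.filter (fun x => qx P x ≤ R ∧ z < qx Q x ∧ qx Q x ≤ D) = ∅ := by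
      rw [eq_empty_iff_forall_notMem]
      intro x hx
      rw [mem_filter] at hx
      omega
    rw [hXe, sum_empty]
    positivity
  obtain ⟨n, rfl⟩ : ∃ n, D = z + n := ⟨D - z, by omega⟩
  have h := parts A P Q hP hQ hPQ M R z hA hR hz (X.filter (fun x => qx P x ≤ R ∧ z < qx Q x))
    (fun x hx => hX1 x (mem_filter.1 hx).1) (fun x hx => hX2 x (mem_filter.1 hx).1)
    (fun x hx => (mem_filter.1 hx).2.1) (fun x hx => (mem_filter.1 hx).2.2) n
  have e : (X.filter (fun x => qx P x ≤ R ∧ z < qx Q x)).filter (fun x => qx Q x ≤ z + n) =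
      X.filter (fun x => qx P x ≤ R ∧ z < qx Q x ∧ qx Q x ≤ z + n) := by
    ext x
    simp only [mem_filter, and_assoc]
  rw [e] at h
  have hb := block A P Q hP hQ hPQ M R hA hR (z + n) (by omega)
    (X.filter (fun x => qx P x ≤ R ∧ z < qx Q x ∧ qx Q x ≤ z + n)) (fun x hx => hX1 x (mem_filter.1 hx).1)
    (fun x hx => hX2 x (mem_filter.1 hx).1) (fun x hx => (mem_filter.1 hx).2.1)
    (fun x hx => (mem_filter.1 hx).2.2.2)
  refine h.trans ?_
  have h1 : (∑ x ∈ X.filter (fun x => qx P x ≤ R ∧ z < qx Q x ∧ qx Q x ≤ z + n), En A (P ∪ Q) x) /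
      ((z : ℝ) + n + 1) ≤ 6 * ((M : ℝ) * (1 / (z + n + 1)) + (R : ℝ) ^ 2 * (z + n)) * A.card := by
    have h2 : (∑ x ∈ X.filter (fun x => qx P x ≤ R ∧ z < qx Q x ∧ qx Q x ≤ z + n), En A (P ∪ Q) x) /
        ((z : ℝ) + n + 1) ≤ 6 * ((M : ℝ) + ((R : ℝ) * (z + n : ℕ)) ^ 2) * A.card / (z + n + 1) :=
      div_le_div_of_nonneg_right hb (by positivity)
    refine h2.trans ?_
    rw [div_le_iff₀ (by positivity)]
    have e : 6 * ((M : ℝ) * (1 / (z + n + 1)) + (R : ℝ) ^ 2 * (z + n)) * A.card * ((z : ℝ) + n + 1) =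
        6 * ((M : ℝ) + (R : ℝ) ^ 2 * ((z + n) * (z + n + 1))) * A.card := by
      field_simp
    rw [e]
    apply mul_le_mul_of_nonneg_right _ hAc
    push_cast
    have h5 : ((R : ℝ) * (z + n)) ^ 2 ≤ (R : ℝ) ^ 2 * ((z + n) * (z + n + 1)) := by
      rw [mul_pow]
      apply mul_le_mul_of_nonneg_left _ (by positivity)
      have : (0 : ℝ) ≤ (z : ℝ) + n := by positivity
      nlinarith
    linarith
  refine (add_le_add_left h1 _).trans ?_
  have h2 : (M : ℝ) * (1 / (z + 1)) ≤ M / z := by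
    rw [mul_one_div]
    apply div_le_div_of_nonneg_left (Nat.cast_nonneg _) hz0 (by linarith)
  have h3 : (0 : ℝ) ≤ (M : ℝ) / z := by positivity
  have h4 : (0 : ℝ) ≤ (R : ℝ) ^ 2 := by positivity
  have hn0 : (0 : ℝ) ≤ n := Nat.cast_nonneg _
  push_cast
  have e3 : 6 * ((M : ℝ) * (1 / (z + n + 1)) + (R : ℝ) ^ 2 * (z + n)) * A.card +
      6 * ((M : ℝ) * (1 / (z + 1) - 1 / (z + n + 1)) + (R : ℝ) ^ 2 * n) * A.card =
      A.card * (6 * ((M : ℝ) * (1 / (z + 1))) + 6 * ((R : ℝ) ^ 2 * (z + n)) + 6 * ((R : ℝ) ^ 2 * n)) := by ring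
  rw [e3]
  have e4 : 12 * (A.card : ℝ) * ((M : ℝ) / z + (R : ℝ) ^ 2 * (z + n)) =
      A.card * (12 * (M / z) + 12 * ((R : ℝ) ^ 2 * (z + n))) := by ring
  rw [e4]
  apply mul_le_mul_of_nonneg_left _ hAc
  have h6 : (R : ℝ) ^ 2 * n ≤ (R : ℝ) ^ 2 * (z + n) := mul_le_mul_of_nonneg_left (by linarith) h4
  linarith

end Pool.Agent.H97.P3
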