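import Mathlib
import Pool.Graph.R_seed8.Erdos456.Mertens
import Pool.Graph.R_seed8.H304R2.EC.MertAbs

/-!
# The theorem of Mertens for the primes which are 1 modulo 4 (upper bound)
-/

set_option autoImplicit false

namespace Pool.Agent.H97.P3

open Finset Filter Topology

/-- the character modulo 4 -/
noncomputable def chi (n : ℕ) : ℝ :=
  if n % 4 = 1 then 1 else if n % 4 = 3 then -1 else 0

lemma chi_mul (a b : ℕ) : chi (a * b) = chi a * chi b := by
  unfold chi
  rw [Nat.mul_mod]
  have h1 := Nat.mod_lt a (show 0 < 4 by norm_num)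
  have h2 := Nat.mod_lt b (show 0 < 4 by norm_num)
  generalize a % 4 = x at *
  generalize b % 4 = y at *
  interval_cases x <;> interval_cases y <;> norm_num

lemma chi_abs_le (n : ℕ) : |chi n| ≤ 1 := by
  unfold chi
  split_ifs <;> simp

lemma sum_chi (N : ℕ) : ∑ n ∈ Icc 1 N, chi n = if N % 4 = 1 ∨ N % 4 = 2 then 1 else 0 := by
  induction N with
  | zero => simp
  | succ N ih =>
    rw [Finset.sum_Icc_succ_top (by omega), ih]
    unfold chi
    have h1 := Nat.mod_lt N (show 0 < 4 by norm_num)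
    rw [Nat.add_mod N 1 4]
    generalize N % 4 = x at *
    interval_cases x <;> norm_num

lemma abs_sum_chi_le (N : ℕ) : |∑ n ∈ Icc 1 N, chi n| ≤ 1 * Real.sqrt N := by
  rcases Nat.eq_zero_or_pos N with h | h
  · subst h; simp
  · have h1 : (1 : ℝ) ≤ Real.sqrt N := by
      rw [Real.one_le_sqrt]; exact_mod_cast h
    rw [sum_chi, one_mul]
    refine le_trans ?_ h1
    split_ifs <;> simp

lemma exists_limit_chi : ∃ L : ℝ, L ≠ 0 ∧
    Tendsto (fun N : ℕ => ∑ n ∈ Icc 1 N, chi n / n) atTop (𝓝 L) := by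
  have hanti : Antitone (fun i : ℕ => (1 : ℝ) / (i + 1)) := by
    intro i j hij
    have : (i : ℝ) ≤ j := by exact_mod_cast hij
    apply one_div_le_one_div_of_le <;> [positivity; linarith]
  have hz : Tendsto (fun i : ℕ => (1 : ℝ) / (i + 1)) atTop (𝓝 0) :=
    tendsto_one_div_add_atTop_nhds_zero_nat
  have hb : ∀ n : ℕ, ‖∑ i ∈ range n, chi (i + 1)‖ ≤ 1 := by
    intro n
    have h1 : ∑ i ∈ range n, chi (i + 1) = ∑ i ∈ Icc 1 n, chi i := by
      rw [Finset.range_eq_Ico, Finset.sum_Ico_add' chi 0 n 1]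
      rfl
    rw [h1, Real.norm_eq_abs, sum_chi]
    split_ifs <;> simp
  have hc := hanti.cauchySeq_series_mul_of_tendsto_zero_of_bounded hz hb
  obtain ⟨L, hL⟩ := cauchySeq_tendsto_of_complete hc
  have hL' : Tendsto (fun N : ℕ => ∑ n ∈ Icc 1 N, chi n / n) atTop (𝓝 L) := by
    refine hL.congr fun N => ?_
    have h1 := Finset.sum_Ico_add' (fun i : ℕ => chi i / (i : ℝ)) 0 N 1
    have h2 : Icc 1 N = Ico (0 + 1) (N + 1) := rfl
    rw [h2, ← h1, Finset.range_eq_Ico]
    apply Finset.sum_congr rfl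
    intro i _
    rw [smul_eq_mul]
    push_cast
    ring
  refine ⟨L, ?_, hL'⟩
  -- the sums over complete blocks increase
  have hmono : ∀ m : ℕ, 2 / 3 ≤ ∑ n ∈ Icc 1 (4 * (m + 1)), chi n / n := by
    intro m
    induction m with
    | zero =>
      norm_num [Finset.sum_Icc_succ_top, chi]
    | succ m ih =>
      have h1 : 4 * (m + 1 + 1) = 4 * (m + 1) + 3 + 1 := by ring
      rw [h1]
      refine le_trans ih ?_
      obtain ⟨k, hk⟩ : ∃ k, k = m + 1 := ⟨_, rfl⟩
      rw [← hk]
      have e : ∀ j, j < 4 → chi (4 * k + j) = if j = 1 then 1 else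
          if j = 3 then -1 else 0 := by
        intro j hj
        unfold chi
        have : (4 * k + j) % 4 = j := by omega
        rw [this]
      have e4 : chi (4 * k + 3 + 1) = 0 := by
        unfold chi
        have : (4 * k + 3 + 1) % 4 = 0 := by omega
        rw [this]; norm_num
      rw [Finset.sum_Icc_succ_top (by omega), e4, zero_div, add_zero,
        show 4 * k + 3 = 4 * k + 2 + 1 by ring, Finset.sum_Icc_succ_top (by omega),
        show 4 * k + 2 + 1 = 4 * k + 3 by ring, e 3 (by norm_num),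
        show 4 * k + 2 = 4 * k + 1 + 1 by ring, Finset.sum_Icc_succ_top (by omega),
        show 4 * k + 1 + 1 = 4 * k + 2 by ring, e 2 (by norm_num),
        Finset.sum_Icc_succ_top (by omega), e 1 (by norm_num)]
      norm_num
      have hk0 : (0 : ℝ) ≤ k := Nat.cast_nonneg k
      have a1 : (4 * (k : ℝ) + 3)⁻¹ ≤ (4 * (k : ℝ) + 1)⁻¹ := by
        apply inv_anti₀ <;> linarith
      have a4 : -1 / (4 * (k : ℝ) + 3) = -(4 * (k : ℝ) + 3)⁻¹ := by ring
      try rw [a4]
      linarith
  have hge : 2 / 3 ≤ L := by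
    have h1 : Tendsto (fun m : ℕ => 4 * (m + 1)) atTop atTop := by
      apply tendsto_atTop_mono (fun m => by omega : ∀ m : ℕ, m ≤ 4 * (m + 1)) tendsto_id
    exact ge_of_tendsto' (hL'.comp h1) hmono
  intro h0
  rw [h0] at hge
  norm_num at hge

lemma chi_lambda : ∃ C : ℝ, ∀ N : ℕ,
    |∑ d ∈ Icc 1 N, ArithmeticFunction.vonMangoldt d * chi d / d| ≤ C := by
  obtain ⟨L, hL0, hL⟩ := exists_limit_chi
  refine Pool.Agent.H304R2.EC.mert_abs chi chi 1 L (fun n => (chi_abs_le n).trans (by norm_num))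
    ?_ abs_sum_chi_le hL hL0
  intro n hn
  have h1 : ∀ d ∈ n.divisors, ArithmeticFunction.vonMangoldt d * chi d * chi (n / d) =
      chi n * ArithmeticFunction.vonMangoldt d := by
    intro d hd
    have h2 : chi d * chi (n / d) = chi n := by
      rw [← chi_mul, Nat.mul_div_cancel' (Nat.dvd_of_mem_divisors hd)]
    rw [mul_assoc, h2, mul_comm]
  rw [Finset.sum_congr rfl h1, ← Finset.mul_sum, ArithmeticFunction.vonMangoldt_sum]

lemma nonprime_sum : ∃ C : ℝ, ∀ N : ℕ,
    ∑ d ∈ (Icc 1 N).filter (fun d => ¬ d.Prime), ArithmeticFunction.vonMangoldt d / d ≤ C := by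
  have hs := ArithmeticFunction.vonMangoldt.summable_residueClass_non_primes_div
    (q := 1) (0 : ZMod 1)
  have he : ∀ n : ℕ, (if n.Prime then 0 else
      ArithmeticFunction.vonMangoldt.residueClass (0 : ZMod 1) n) / (n : ℝ) =
      (if n.Prime then 0 else ArithmeticFunction.vonMangoldt n / (n : ℝ)) := by
    intro n
    have : ArithmeticFunction.vonMangoldt.residueClass (0 : ZMod 1) n =
        ArithmeticFunction.vonMangoldt n := by
      unfold ArithmeticFunction.vonMangoldt.residueClass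
      rw [Set.indicator_of_mem]
      show (n : ZMod 1) = 0
      exact Subsingleton.elim _ _
    rw [this]
    split_ifs <;> simp
  simp only [he] at hs
  refine ⟨∑' n : ℕ, (if n.Prime then 0 else ArithmeticFunction.vonMangoldt n / (n : ℝ)),
    fun N => ?_⟩
  have hnn : ∀ n : ℕ, 0 ≤ (if n.Prime then 0 else ArithmeticFunction.vonMangoldt n / (n : ℝ)) := by
    intro n
    split_ifs
    · exact le_rfl
    · exact div_nonneg ArithmeticFunction.vonMangoldt_nonneg (Nat.cast_nonneg _)
  calc ∑ d ∈ (Icc 1 N).filter (fun d => ¬ d.Prime), ArithmeticFunction.vonMangoldt d / (d : ℝ)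
      = ∑ d ∈ (Icc 1 N).filter (fun d => ¬ d.Prime),
        (if d.Prime then 0 else ArithmeticFunction.vonMangoldt d / (d : ℝ)) := by
        apply Finset.sum_congr rfl
        intro d hd
        rw [if_neg (Finset.mem_filter.1 hd).2]
    _ ≤ _ := hs.sum_le_tsum _ (fun n _ => hnn n)

lemma chi_prime_sum : ∃ C : ℝ, ∀ N : ℕ,
    |∑ p ∈ (Icc 1 N).filter Nat.Prime, chi p * Real.log p / p| ≤ C := by
  obtain ⟨C1, h1⟩ := chi_lambda
  obtain ⟨C2, h2⟩ := nonprime_sum
  refine ⟨C1 + C2, fun N => ?_⟩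
  have h3 := Finset.sum_filter_add_sum_filter_not (Icc 1 N) Nat.Prime
    (fun d => ArithmeticFunction.vonMangoldt d * chi d / d)
  have h4 : ∑ p ∈ (Icc 1 N).filter Nat.Prime, ArithmeticFunction.vonMangoldt p * chi p / p =
      ∑ p ∈ (Icc 1 N).filter Nat.Prime, chi p * Real.log p / p := by
    apply Finset.sum_congr rfl
    intro p hp
    rw [ArithmeticFunction.vonMangoldt_apply_prime (Finset.mem_filter.1 hp).2, mul_comm]
  have h5 : |∑ d ∈ (Icc 1 N).filter (fun d => ¬ d.Prime),
      ArithmeticFunction.vonMangoldt d * chi d / d| ≤ C2 := by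
    refine le_trans ?_ (h2 N)
    refine (Finset.abs_sum_le_sum_abs _ _).trans (Finset.sum_le_sum ?_)
    intro d _
    have h6 := chi_abs_le d
    have h7 : 0 ≤ ArithmeticFunction.vonMangoldt d := ArithmeticFunction.vonMangoldt_nonneg
    rw [abs_div, abs_mul, abs_of_nonneg h7, abs_of_nonneg (Nat.cast_nonneg d : (0 : ℝ) ≤ d)]
    apply div_le_div_of_nonneg_right _ (Nat.cast_nonneg d)
    nlinarith
  have h8 := h1 N
  rw [← h3, h4] at h8
  have h9 : ∑ p ∈ (Icc 1 N).filter Nat.Prime, chi p * Real.log p / p =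
      (∑ p ∈ (Icc 1 N).filter Nat.Prime, chi p * Real.log p / p +
        ∑ d ∈ (Icc 1 N).filter (fun d => ¬ d.Prime), ArithmeticFunction.vonMangoldt d * chi d / d) -
      ∑ d ∈ (Icc 1 N).filter (fun d => ¬ d.Prime), ArithmeticFunction.vonMangoldt d * chi d / d := by
    ring
  rw [h9]
  exact (abs_sub _ _).trans (add_le_add h8 h5)

/-- the sum of `2 log p / p` over the primes `p ≡ 1` modulo 4 of `(x, y]` -/
noncomputable def S (x y : ℕ) : ℝ :=
  ∑ p ∈ (Ioc x y).filter (fun p => p.Prime ∧ p % 4 = 1), 2 * Real.log p / p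

theorem S_le : ∃ C : ℝ, 0 ≤ C ∧ ∀ x y : ℕ, 2 ≤ x → x ≤ y →
    S x y - (Real.log y - Real.log x) ≤ C := by
  obtain ⟨C1, h1⟩ := Pool.Agent.Erdos456.Mert.mertens_log
  obtain ⟨C2, h2⟩ := chi_prime_sum
  have hC2 : 0 ≤ C2 := (abs_nonneg _).trans (h2 0)
  have hC1 : 0 ≤ C1 := (abs_nonneg _).trans (h1 1 le_rfl)
  refine ⟨2 * C1 + 2 * C2, by positivity, fun x y hx hxy => ?_⟩
  set F : ℕ → ℝ := fun p => Real.log p / p + chi p * Real.log p / p with hF
  have hS : S x y = ∑ p ∈ (Ioc x y).filter Nat.Prime, F p := by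
    unfold S
    have e1 : (Ioc x y).filter (fun p => p.Prime ∧ p % 4 = 1) =
        ((Ioc x y).filter Nat.Prime).filter (fun p => p % 4 = 1) := by
      rw [Finset.filter_filter]
    rw [e1, Finset.sum_filter]
    apply Finset.sum_congr rfl
    intro p hp
    rw [Finset.mem_filter, Finset.mem_Ioc] at hp
    obtain ⟨⟨hp1, hp2⟩, hp3⟩ := hp
    have hodd := hp3.odd_of_ne_two (by omega)
    obtain ⟨k, hk⟩ := hodd
    have h4 : p % 4 = 1 ∨ p % 4 = 3 := by omega
    rcases h4 with h4 | h4
    · rw [if_pos h4, hF]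
      simp only [chi, h4, if_true]
      ring
    · rw [if_neg (by omega), hF]
      simp only [chi, h4]
      norm_num
      ring
  have hsplit : ∑ p ∈ (Icc 1 y).filter Nat.Prime, F p =
      ∑ p ∈ (Icc 1 x).filter Nat.Prime, F p + ∑ p ∈ (Ioc x y).filter Nat.Prime, F p := by
    rw [← Finset.sum_union]
    · congr 1
      ext p
      simp only [Finset.mem_union, Finset.mem_filter, Finset.mem_Icc, Finset.mem_Ioc]
      constructor
      · rintro ⟨⟨h3, h4⟩, h5⟩
        by_cases h6 : p ≤ x
        · exact Or.inl ⟨⟨h3, h6⟩, h5⟩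
        · exact Or.inr ⟨⟨by omega, h4⟩, h5⟩
      · rintro (⟨⟨h3, h4⟩, h5⟩ | ⟨⟨h3, h4⟩, h5⟩)
        · exact ⟨⟨h3, by omega⟩, h5⟩
        · exact ⟨⟨by omega, h4⟩, h5⟩
    · rw [Finset.disjoint_left]
      intro p h3 h4
      rw [Finset.mem_filter, Finset.mem_Icc] at h3
      rw [Finset.mem_filter, Finset.mem_Ioc] at h4
      omega
  have hFs : ∀ N, ∑ p ∈ (Icc 1 N).filter Nat.Prime, F p =
      ∑ p ∈ (Icc 1 N).filter Nat.Prime, Real.log p / p +
      ∑ p ∈ (Icc 1 N).filter Nat.Prime, chi p * Real.log p / p := by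
    intro N
    rw [← Finset.sum_add_distrib]
  have a1 := abs_le.1 (h1 y (by omega))
  have a2 := abs_le.1 (h1 x (by omega))
  have a3 := abs_le.1 (h2 y)
  have a4 := abs_le.1 (h2 x)
  rw [hFs, hFs] at hsplit
  rw [hS]
  linarith [a1.1, a1.2, a2.1, a2.2, a3.1, a3.2, a4.1, a4.2]

/-- **Mertens' theorem for the primes `p ≡ 1` modulo 4**, an upper bound. -/
theorem mertens4 : ∃ C : ℝ, 0 ≤ C ∧ ∀ x y : ℕ, 2 ≤ x → x ≤ y →
    ∑ p ∈ (Ioc x y).filter (fun p => p.Prime ∧ p % 4 = 1), 2 / (p : ℝ) ≤
      Real.log (Real.log y / Real.log x) + C / Real.log x := by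
  obtain ⟨C, hC, h⟩ := S_le
  refine ⟨C, hC, fun x y hx hxy => ?_⟩
  have hlx : 0 < Real.log x := Real.log_pos (by exact_mod_cast (by omega : 1 < x))
  have key : ∀ y : ℕ, x ≤ y →
      ∑ p ∈ (Ioc x y).filter (fun p => p.Prime ∧ p % 4 = 1), 2 / (p : ℝ) ≤
        Real.log (Real.log y / Real.log x) +
          (S x y - (Real.log y - Real.log x) - C) / Real.log y + C / Real.log x := by
    intro y hy
    induction y, hy using Nat.le_induction with
    | base =>
      rw [Finset.Ioc_self, Finset.filter_empty, Finset.sum_empty, div_self hlx.ne', Real.log_one]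
      have : S x x = 0 := by
        unfold S
        rw [Finset.Ioc_self, Finset.filter_empty, Finset.sum_empty]
      rw [this]
      have e : 0 + (0 - (Real.log x - Real.log x) - C) / Real.log x + C / Real.log x = 0 := by ring
      rw [e]
    | succ y hy ih =>
      have hly : 0 < Real.log y := Real.log_pos (by exact_mod_cast (by omega : 1 < y))
      have hly1 : Real.log y ≤ Real.log (y + 1 : ℕ) := by
        apply Real.log_le_log
        · exact_mod_cast (by omega : 0 < y)
        · push_cast; linarith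
      have hly2 : 0 < Real.log (y + 1 : ℕ) := hly.trans_le hly1
      set u := Real.log y with hu
      set v := Real.log (y + 1 : ℕ) with hv
      set a := (if (y + 1).Prime ∧ (y + 1) % 4 = 1 then 2 / ((y + 1 : ℕ) : ℝ) else 0) with ha
      have e1 : ∑ p ∈ (Ioc x (y + 1)).filter (fun p => p.Prime ∧ p % 4 = 1), 2 / (p : ℝ) =
          ∑ p ∈ (Ioc x y).filter (fun p => p.Prime ∧ p % 4 = 1), 2 / (p : ℝ) + a := by
        rw [Finset.sum_filter, Finset.sum_filter, Finset.sum_Ioc_succ_top (by omega)]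
      have e2 : S x (y + 1) = S x y + a * v := by
        unfold S
        rw [Finset.sum_filter, Finset.sum_filter, Finset.sum_Ioc_succ_top (by omega)]
        congr 1
        rw [ha, hv]
        split_ifs
        · ring
        · ring
      rw [e1, e2]
      have e3 : Real.log (v / Real.log x) = Real.log (u / Real.log x) + Real.log (v / u) := by
        rw [Real.log_div hly2.ne' hlx.ne', Real.log_div hly.ne' hlx.ne', Real.log_div hly2.ne' hly.ne']
        ring
      have e4 : 1 - u / v ≤ Real.log (v / u) := by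
        have h5 := Real.one_sub_inv_le_log_of_pos (div_pos hly2 hly)
        rwa [inv_div] at h5
      have e5 : (S x y + a * v - (v - Real.log x) - C) / v =
          (S x y - (u - Real.log x) - C) / v + a - (1 - u / v) := by
        field_simp
        ring
      have e6 : (S x y - (u - Real.log x) - C) / u ≤ (S x y - (u - Real.log x) - C) / v := by
        have h6 : S x y - (u - Real.log x) - C ≤ 0 := by
          have := h x y hx hy
          linarith
        rw [div_le_div_iff₀ hly hly2]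
        nlinarith
      rw [e3, e5]
      linarith
  refine (key y hxy).trans ?_
  have hly : 0 < Real.log y := Real.log_pos (by exact_mod_cast (by omega : 1 < y))
  have h6 : (S x y - (Real.log y - Real.log x) - C) / Real.log y ≤ 0 := by
    apply div_nonpos_of_nonpos_of_nonneg _ hly.le
    have := h x y hx hxy
    linarith
  linarith

end Pool.Agent.H97.P3
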