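import Pool.Agent.H13.P3.Tw

/-!
# `twisted` with explicit `s` (helper97 after helper13's `Tw.lean`; for helper16's P3)
-/

set_option autoImplicit false

namespace Pool.Agent.H97.P3b

open Finset
open Pool.Agent.H14.VC
open Pool.Agent.H13.P3
open Pool.Agent.H97.P3 (mu_bound sum_bound)

lemma le_pow_tenth (x z : ℝ) (hx : 0 ≤ x) (h : x ^ 10 ≤ z) : x ≤ z ^ (1 / 10 : ℝ) := by
  have h1 : (x ^ 10) ^ (1 / 10 : ℝ) ≤ z ^ (1 / 10 : ℝ) := Real.rpow_le_rpow (by positivity) h (by norm_num)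
  have h2 : (x ^ 10) ^ (1 / 10 : ℝ) = x := by
    rw [← Real.rpow_natCast x 10, ← Real.rpow_mul hx]
    norm_num
  rwa [h2] at h1

lemma exists_z5 (m : ℕ) (C μ B : ℝ) (hC : 0 < C) : ∃ z₀ : ℕ, 3 ≤ z₀ ∧ ∀ z : ℕ, z₀ ≤ z →
    C ≤ z ∧ Real.log z ^ m * C ≤ (z : ℝ) ^ (1 / 10 : ℝ) ∧ μ ≤ (z : ℝ) ^ (1 / 10 : ℝ) ∧ B ≤ Real.log z := by
  have h1 := (Real.isLittleO_pow_log_id_atTop (n := 10 * m)).bound (show (0 : ℝ) < 1 / C ^ 10 by positivity)
  have h2 : ∀ᶠ z : ℕ in Filter.atTop, ‖Real.log (z : ℝ) ^ (10 * m)‖ ≤ 1 / C ^ 10 * ‖id (z : ℝ)‖ :=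
    tendsto_natCast_atTop_atTop.eventually h1
  have h3 : ∀ᶠ z : ℕ in Filter.atTop, C ≤ (z : ℝ) := tendsto_natCast_atTop_atTop.eventually_ge_atTop C
  have h4 : ∀ᶠ z : ℕ in Filter.atTop, |μ| ^ 10 ≤ (z : ℝ) := tendsto_natCast_atTop_atTop.eventually_ge_atTop _
  have h5 : ∀ᶠ z : ℕ in Filter.atTop, B ≤ Real.log z :=
    (Real.tendsto_log_atTop.comp tendsto_natCast_atTop_atTop).eventually_ge_atTop B
  obtain ⟨z₀, hz₀⟩ := Filter.eventually_atTop.1 (((h2.and h3).and h4).and h5)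
  refine ⟨max z₀ 3, le_max_right _ _, ?_⟩
  intro z hz
  obtain ⟨⟨⟨a1, a2⟩, a3⟩, a4⟩ := hz₀ z ((le_max_left _ _).trans hz)
  have hz3 : (3 : ℝ) ≤ z := by exact_mod_cast (le_max_right _ _).trans hz
  have hl : 0 ≤ Real.log z := Real.log_nonneg (by linarith)
  refine ⟨a2, ?_, ?_, a4⟩
  · rw [id, Real.norm_of_nonneg (by positivity), Real.norm_of_nonneg (by linarith), one_div_mul_eq_div,
      le_div_iff₀ (by positivity)] at a1
    apply le_pow_tenth _ _ (by positivity)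
    have e : 10 * m = m * 10 := by ring
    calc (Real.log z ^ m * C) ^ 10 = Real.log z ^ (10 * m) * C ^ 10 := by
          rw [e, pow_mul]
          ring
      _ ≤ (z : ℝ) := a1
  · exact (le_abs_self μ).trans (le_pow_tenth _ _ (abs_nonneg _) a3)

lemma num_final5 (c₀ k a M z R2 D μs F W : ℝ) (hc₀ : 0 < c₀) (hk : 1 ≤ k) (ha : 0 ≤ a) (hM0 : 0 ≤ M) (hz : 3 ≤ z)
    (hμ0 : 0 < μs) (hF1 : 1 ≤ F) (hW : 0 < W) (hF2 : F * F * W = z) (hzμ : 72 * μs ≤ F)
    (hR2D : R2 ≤ R2 * D) (hRDM : R2 * D ≤ M / z) (hMz : M / z ≤ M) :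
    c₀ / (100 * k) * a ^ 2 - M * a / W ≤
      7 * c₀ / 64 / k * a ^ 2 - 2 * μs / z * (6 * (M + R2) * a) - 2 * F * μs * (12 * a * (M / z + R2 * D)) := by
  have hA2 : 0 ≤ a ^ 2 := sq_nonneg _
  have hFpos : 0 < F := by linarith
  have hz0 : 0 < z := by linarith
  have h1 : c₀ / (100 * k) * a ^ 2 ≤ 7 * c₀ / 64 / k * a ^ 2 := by
    apply mul_le_mul_of_nonneg_right _ hA2
    rw [div_div, div_le_div_iff₀ (by positivity) (by positivity)]
    nlinarith [mul_pos hc₀ (by linarith : (0 : ℝ) < k)]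
  have h2 : 2 * μs / z * (6 * (M + R2) * a) ≤ 24 * μs * (M * a / z) := by
    have h3 : M + R2 ≤ 2 * M := by linarith
    calc 2 * μs / z * (6 * (M + R2) * a) ≤ 2 * μs / z * (6 * (2 * M) * a) := by gcongr
      _ = 24 * μs * (M * a / z) := by ring
  have h3 : 2 * F * μs * (12 * a * (M / z + R2 * D)) ≤ 48 * F * μs * (M * a / z) := by
    calc 2 * F * μs * (12 * a * (M / z + R2 * D)) ≤ 2 * F * μs * (12 * a * (M / z + M / z)) := by gcongr
      _ = 48 * F * μs * (M * a / z) := by ring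
  have hMA : 0 ≤ M * a / z := by positivity
  have h4 : 24 * μs * (M * a / z) + 48 * F * μs * (M * a / z) ≤ M * a / W := by
    have h5 : 24 * μs + 48 * F * μs ≤ F * F := by
      have h6 : 24 * μs ≤ 24 * F * μs := by nlinarith
      have h7 : 72 * μs * F ≤ F * F := mul_le_mul_of_nonneg_right hzμ hFpos.le
      linarith
    calc 24 * μs * (M * a / z) + 48 * F * μs * (M * a / z) =
        (24 * μs + 48 * F * μs) * (M * a / z) := by ring
      _ ≤ (F * F) * (M * a / z) := mul_le_mul_of_nonneg_right h5 hMA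
      _ = M * a / W := by
          rw [← hF2]
          field_simp
  linarith

open Classical in
/-- `twisted` with an explicit `s` (two inequalities) and a better error term -/
theorem twistedS (g : ℕ) (hg : 1 ≤ g) (c₀ : ℝ) (hc₀ : 0 < c₀) (e : ℝ) (he : 0 < e) (s : ℕ)
    (hs1' : 2 * (2 * ((g : ℝ) ^ 2 + g) * (1 + e) + (2 * (g + (g ^ 2 + 3 * g) + 2) : ℕ) + 3) ≤ s)
    (hs2' : ((g : ℝ) * (1 + e) + (2 * (g + (g ^ 2 + 3 * g) + 2) : ℕ)) / (s : ℝ) ^ 2 ≤ 7 * c₀ / 64) :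
    ∀ k : ℕ, 1 ≤ k → ∃ z₀ : ℕ, 3 ≤ z₀ ∧
    ∀ z : ℕ, z₀ ≤ z → ∀ M D : ℕ, D ≤ z ^ k → z ^ (4 * s + 4) * D ≤ M →
    ∀ T : ℕ → ℤ → Prop, (∀ p : ℕ, ∀ n m : ℤ, (p : ℤ) ∣ n - m → (T p n ↔ T p m)) →
      (∀ p : ℕ, ∀ n : ℤ, T p n ↔ T p (-n)) → (∀ p : ℕ, p.Prime → ¬ T p 0) →
      (∀ p : ℕ, p.Prime → ((range p).filter (fun r : ℕ => T p r)).card ≤ g) →
    ∀ Q : Finset ℕ, (∀ p ∈ Q, p.Prime ∧ z < p) → ∑ p ∈ Q, 1 / (p : ℝ) ≤ k →
    ∀ l1 l2 : Finset ℕ → ℝ, (∀ U ⊆ Q, |l1 U| ≤ k ∧ |l2 U| ≤ k) →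
      (∀ U ⊆ Q, D < ∏ p ∈ U, p → l1 U = 0 ∧ l2 U = 0) →
      0 ≤ Vd T Q l2 → Vd T Q l2 ≤ (1 - c₀) * Vd T Q l1 → 1 / (k : ℝ) ≤ Vd T Q l1 →
    ∀ A ⊆ Icc 1 M, c₀ / (100 * k) * (A.card : ℝ) ^ 2 - M * A.card / (z : ℝ) ^ (4 / 5 : ℝ) ≤
      PS A (fun n => Lam (Pz z) (s * Real.log z) g T n ^ 2 *
        ((1 - ∑ q ∈ Pz z, (if T q n then (1 : ℝ) else 0)) * Sv T Q l1 n - Sv T Q l2 n)) := by
  obtain ⟨C1, hC1⟩ := Pool.Agent.Helper256.KM.Mert.mertens_log
  obtain ⟨C2, hC2⟩ := Pool.Agent.Helper256.KM.Mert.mertens_inv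
  have hC20 : 0 ≤ C2 := (abs_nonneg _).trans (hC2 3 le_rfl)
  have hgR : (1 : ℝ) ≤ g := by exact_mod_cast hg
  obtain ⟨G, hG⟩ : ∃ G : ℕ, G = g ^ 2 + 3 * g := ⟨_, rfl⟩
  obtain ⟨K, hK⟩ : ∃ K : ℕ, K = 2 * (g + G + 2) := ⟨_, rfl⟩
  have hGR : (G : ℝ) = (g : ℝ) ^ 2 + 3 * g := by rw [hG]; push_cast; ring
  have hG1 : (1 : ℝ) ≤ G := by rw [hGR]; nlinarith
  have hK0 : (0 : ℝ) ≤ K := Nat.cast_nonneg _
  have hs1 : 2 * (2 * ((g : ℝ) ^ 2 + g) * (1 + e) + K + 3) ≤ s := by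
    rw [hK, hG]; exact hs1'
  have hs2 : ((g : ℝ) * (1 + e) + K) / (s : ℝ) ^ 2 ≤ 7 * c₀ / 64 := by
    rw [hK, hG]; exact hs2'
  have hsR : (1 : ℝ) ≤ s := by
    have : 0 ≤ 2 * ((g : ℝ) ^ 2 + g) * (1 + e) := by positivity
    linarith
  have hsn : 1 ≤ s := by exact_mod_cast hsR
  intro k hk
  have hkR : (1 : ℝ) ≤ k := by exact_mod_cast hk
  obtain ⟨μs, hμs⟩ : ∃ μs : ℝ, μs = k * (g : ℝ) ^ k * Real.exp (g * k) := ⟨_, rfl⟩
  have hμ0 : 0 < μs := by rw [hμs]; positivity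
  obtain ⟨CC0, hCC0⟩ : ∃ CC0 : ℝ, CC0 = Real.exp ((g + G) * C2) * (2 * G) ^ (4 * G ^ 2) := ⟨_, rfl⟩
  have hCCpos : 0 < CC0 := by rw [hCC0]; positivity
  obtain ⟨z₀, hz₀3, hz₀⟩ := exists_z5 (g + G) CC0 (72 * μs) (C1 / e) hCCpos
  refine ⟨z₀, hz₀3, ?_⟩
  intro z hz M D hD hM T per even h0 hρ Q hQ hsum l1 l2 hl_ hlD hV2 hV12 hV1 A hA
  have hz3 : 3 ≤ z := hz₀3.trans hz
  have hz3R : (3 : ℝ) ≤ z := by exact_mod_cast hz3
  obtain ⟨hzC, hzF, hzμ, hzl⟩ := hz₀ z hz
  obtain ⟨F, hF⟩ : ∃ F : ℝ, F = (z : ℝ) ^ (1 / 10 : ℝ) := ⟨_, rfl⟩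
  rw [← hF] at hzF hzμ
  have hFpos : 0 < F := by rw [hF]; exact Real.rpow_pos_of_pos (by linarith) _
  obtain ⟨W, hW⟩ : ∃ W : ℝ, W = (z : ℝ) ^ (4 / 5 : ℝ) := ⟨_, rfl⟩
  have hWpos : 0 < W := by rw [hW]; exact Real.rpow_pos_of_pos (by linarith) _
  have hF2 : F * F * W = z := by
    rw [hF, hW, ← Real.rpow_add (by linarith), ← Real.rpow_add (by linarith)]
    norm_num
  rw [← hW]
  have hl : 1 ≤ Real.log z := by
    rw [Real.le_log_iff_exp_le (by linarith)]
    linarith [Real.exp_one_lt_d9]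
  have hl0 : 0 < Real.log z := by linarith
  have hL : 0 < s * Real.log z := by positivity
  obtain ⟨P, hPdef⟩ : ∃ P : Finset ℕ, P = Pz z := ⟨_, rfl⟩
  rw [← hPdef]
  have hP : ∀ p ∈ P, p.Prime := fun p hp => (mem_filter.1 (hPdef ▸ hp)).2
  have hPz : ∀ p ∈ P, p ≤ z := fun p hp => (mem_Icc.1 (mem_filter.1 (hPdef ▸ hp)).1).2
  have hQ' : ∀ p ∈ Q, p.Prime := fun p hp => (hQ p hp).1
  have hT : ∀ p ∈ P, cT (T p) p 0 ≤ g := by
    intro p hp
    rw [cT_zero]
    exact_mod_cast hρ p (hP p hp)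
  have hTQ : ∀ p ∈ Q, cT (T p) p 0 ≤ g := by
    intro p hp
    rw [cT_zero]
    exact_mod_cast hρ p (hQ' p hp)
  have hPQ : Disjoint P Q := by
    rw [disjoint_left]
    intro p hp hq
    have := hPz p hp
    have := (hQ p hq).2
    omega
  have hPR : ∀ p ∈ P ∪ Q, p.Prime := fun p hp => (mem_union.1 hp).elim (hP p) (hQ' p)
  obtain ⟨X, hX1, hX2, hX3, hX4⟩ := exists_X (P ∪ Q) hPR
  have hid := ident A P Q T X hP hQ' hPQ per even (fun p hp => h0 p (hP p hp)) hX4 (s * Real.log z) g l1 l2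
  unfold Sv
  rw [hid]
  -- Mertens
  have hm1 : ∑ p ∈ P, Real.log p / p ≤ (1 + e) * Real.log z := by
    have h1 := (abs_le.1 (hC1 z (by omega))).2
    have h2 : ∑ p ∈ P, Real.log p / p = ∑ p ∈ (Icc 1 z).filter Nat.Prime, Real.log (p : ℝ) / p := by
      rw [hPdef]
    have h3 : C1 ≤ e * Real.log z := by
      rw [div_le_iff₀ he] at hzl
      linarith
    rw [h2]
    linarith
  have hm2 : ∑ p ∈ P, 1 / (p : ℝ) ≤ Real.log (Real.log z) + C2 := by
    have h1 := (abs_le.1 (hC2 z hz3)).2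
    have h2 : ∑ p ∈ P, 1 / (p : ℝ) = ∑ p ∈ (Icc 1 z).filter Nat.Prime, 1 / (p : ℝ) := by
      rw [hPdef]
    rw [h2]
    linarith
  have hm3 : ∑ p ∈ P, 1 / (p : ℝ) ≤ Real.log z + C2 := by
    have h2 := Real.log_le_sub_one_of_pos hl0
    linarith
  -- D is positive
  have hD1 : 1 ≤ D := by
    by_contra hc
    have hD0 : D = 0 := by omega
    have hz1 : Vd T Q l1 = 0 := by
      unfold Vd
      apply sum_eq_zero
      intro U hU
      rw [(hlD U (mem_powerset.1 hU) (by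
        rw [hD0]
        exact prod_pos fun p hp => (hQ' p (mem_powerset.1 hU hp)).pos)).1, zero_mul]
    rw [hz1] at hV1
    have : 0 < 1 / (k : ℝ) := by positivity
    linarith
  have hV1pos : 0 < Vd T Q l1 := lt_of_lt_of_le (by positivity) hV1
  obtain ⟨R, hR⟩ : ∃ R : ℕ, R = z ^ (2 * s + 1) := ⟨_, rfl⟩
  have hR1 : 1 ≤ R := by rw [hR]; exact Nat.one_le_pow _ _ (by omega)
  have hAc : (0 : ℝ) ≤ A.card := Nat.cast_nonneg _
  have hEn : ∀ x, 0 ≤ En A (P ∪ Q) x := fun x => by unfold En; positivity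
  have hJ0 : ∀ x, 0 ≤ ∏ p ∈ P, Jf (g : ℝ) T x p := fun x => prod_nonneg (J_nn P hP T g hgR hT x)
  -- sizes
  have hRD : (z : ℝ) ^ 2 * ((R : ℝ) ^ 2 * D) ≤ M := by
    have : z ^ 2 * (R ^ 2 * D) ≤ M := by
      refine le_trans (le_of_eq ?_) hM
      rw [hR]
      ring
    exact_mod_cast this
  have hR2D : (R : ℝ) ^ 2 ≤ (R : ℝ) ^ 2 * D := by
    have : (1 : ℝ) ≤ D := by exact_mod_cast hD1
    exact le_mul_of_one_le_right (sq_nonneg _) this
  have hRD0 : 0 ≤ (R : ℝ) ^ 2 * D := by positivity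
  have hRDM : (R : ℝ) ^ 2 * D ≤ M / z := by
    rw [le_div_iff₀ (by linarith)]
    have hzz2 : (z : ℝ) ≤ (z : ℝ) ^ 2 := le_self_pow₀ (by linarith only [hz3R]) two_ne_zero
    calc (R : ℝ) ^ 2 * D * z = z * ((R : ℝ) ^ 2 * D) := by ring
      _ ≤ (z : ℝ) ^ 2 * ((R : ℝ) ^ 2 * D) := mul_le_mul_of_nonneg_right hzz2 hRD0
      _ ≤ M := hRD
  have hM0 : (0 : ℝ) ≤ M := Nat.cast_nonneg _
  have hMz : (M : ℝ) / z ≤ M := div_le_self hM0 (by linarith)
  -- the pointwise bound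
  have hpt : ∀ x ∈ X,
      (if x = (fun _ => 0) then 7 * c₀ / 64 / k * (A.card : ℝ) ^ 2 else 0) -
      (if qx P x ≤ R ∧ (∀ p ∈ Q, x p = 0) then 2 * μs / z * En A (P ∪ Q) x else 0) -
      (if qx P x ≤ R ∧ z < qx Q x ∧ qx Q x ≤ D then 2 * F * μs * (En A (P ∪ Q) x / (qx Q x : ℕ)) else 0) ≤
      (Cf P (s * Real.log z) g T x * mu T Q l1 x - Bf P (s * Real.log z) g T x * mu T Q l2 x) *
        En A (P ∪ Q) x := by
    intro x _
    have hen := hEn x
    have hq1 : qx P (fun _ => 0) = 1 := qx_one P _ (fun _ _ => rfl)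
    have hmu1 := mu_bound T Q l1 z D k g (by omega) hg hQ hsum hTQ (fun U hU => (hl_ U hU).1)
      (fun U hU h => (hlD U hU h).1) hD x
    have hmu2 := mu_bound T Q l2 z D k g (by omega) hg hQ hsum hTQ (fun U hU => (hl_ U hU).2)
      (fun U hU h => (hlD U hU h).2) hD x
    rw [← hμs] at hmu1 hmu2
    by_cases hxQ : ∀ p ∈ Q, x p = 0
    · -- no large primes
      have hqQ : qx Q x = 1 := qx_one Q x hxQ
      have hn3 : ¬ (qx P x ≤ R ∧ z < qx Q x ∧ qx Q x ≤ D) := by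
        rintro ⟨_, h, _⟩
        omega
      rw [if_neg hn3, sub_zero]
      rw [mu_zero T Q l1 x hxQ] at hmu1 ⊢
      rw [mu_zero T Q l2 x hxQ] at hmu2 ⊢
      rw [hqQ, Nat.cast_one, div_one] at hmu1 hmu2
      by_cases hqR : qx P x ≤ R
      · have hp2 : qx P x ≤ R ∧ ∀ p ∈ Q, x p = 0 := ⟨hqR, hxQ⟩
        rw [if_pos hp2]
        have hz0 : 0 ≤ 2 * μs / z * En A (P ∪ Q) x := by positivity
        by_cases hq : qx P x ≤ z ^ K
        · have hlog : Real.log (qx P x : ℕ) ≤ (K : ℝ) * Real.log z := by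
            rw [← Real.log_pow]
            apply Real.log_le_log
            · exact_mod_cast qx_pos P hP x
            · exact_mod_cast hq
          have hB := nearB P hP T g hgR hT x z s hz3 hPz e K hm1 hs1 hlog
          have hC := nearC P hP T g hgR hT x z s hz3 hPz e K (7 * c₀ / 64) hm1 hs1 hs2 hlog
          have hB0 := Bf_nonneg P hP T g hgR hT x (s * Real.log z)
          have hJ := hJ0 x
          have hc : 7 * c₀ / 64 * Vd T Q l1 * ∏ p ∈ P, Jf (g : ℝ) T x p ≤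
              Cf P (s * Real.log z) g T x * Vd T Q l1 - Bf P (s * Real.log z) g T x * Vd T Q l2 := by
            have h1 : Bf P (s * Real.log z) g T x * Vd T Q l2 ≤
                Bf P (s * Real.log z) g T x * ((1 - c₀) * Vd T Q l1) := mul_le_mul_of_nonneg_left hV12 hB0
            have h2 : (Bf P (s * Real.log z) g T x - 7 * c₀ / 64 * ∏ p ∈ P, Jf (g : ℝ) T x p) * Vd T Q l1 ≤
                Cf P (s * Real.log z) g T x * Vd T Q l1 := mul_le_mul_of_nonneg_right hC hV1pos.le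
            have h3 : 7 / 32 * (∏ p ∈ P, Jf (g : ℝ) T x p) * (c₀ * Vd T Q l1) ≤
                Bf P (s * Real.log z) g T x * (c₀ * Vd T Q l1) := mul_le_mul_of_nonneg_right hB (by positivity)
            linarith
          by_cases hx0 : x = fun _ => 0
          · rw [if_pos hx0]
            have hJ1 : 1 ≤ ∏ p ∈ P, Jf (g : ℝ) T x p := by
              calc (1 : ℝ) = ∏ _p ∈ P, (1 : ℝ) := by simp
                _ ≤ _ := by
                  apply Finset.prod_le_prod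
                  · intro _ _; norm_num
                  · intro p hp
                    exact (J_one P hP T g hgR hT x p hp (by rw [hx0])).1
            have hEn0 : En A (P ∪ Q) x = (A.card : ℝ) ^ 2 := by
              unfold En
              have : xi (P ∪ Q) x = 0 := by
                unfold xi
                rw [hx0]
                simp
              rw [this]
              simp [Pool.Agent.Helper112.ls_ee_zero]
            have h1 : 7 * c₀ / 64 / k ≤ Cf P (s * Real.log z) g T x * Vd T Q l1 -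
                Bf P (s * Real.log z) g T x * Vd T Q l2 := by
              refine le_trans ?_ hc
              have h2 : 7 * c₀ / 64 / k = 7 * c₀ / 64 * (1 / k) := by ring
              rw [h2]
              have h3 : 7 * c₀ / 64 * (1 / (k : ℝ)) ≤ 7 * c₀ / 64 * Vd T Q l1 :=
                mul_le_mul_of_nonneg_left hV1 (by positivity)
              have h4 : 0 ≤ 7 * c₀ / 64 * Vd T Q l1 := by positivity
              exact h3.trans (le_mul_of_one_le_right h4 hJ1)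
            rw [hEn0] at hz0 ⊢
            have h5 : 0 ≤ (A.card : ℝ) ^ 2 := sq_nonneg _
            have h6 := mul_le_mul_of_nonneg_right h1 h5
            linarith
          · rw [if_neg hx0]
            have h1 : 0 ≤ Cf P (s * Real.log z) g T x * Vd T Q l1 -
                Bf P (s * Real.log z) g T x * Vd T Q l2 := by
              refine le_trans ?_ hc
              positivity
            have := mul_nonneg h1 hen
            linarith
        · push Not at hq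
          have hx0 : x ≠ fun _ => 0 := by
            intro h
            rw [h, hq1] at hq
            have := Nat.one_le_pow K z (by omega)
            omega
          rw [if_neg hx0]
          have hfar := far2 P hP T g hgR hT x (s * Real.log z) G (Real.log z + C2) (4 * G ^ 2) hL hGR
            (by push_cast; exact le_rfl) hm3
          have hsq : (z : ℝ) ^ (g + G + 2) ≤ Real.sqrt (qx P x : ℕ) := by
            apply Real.le_sqrt_of_sq_le
            rw [← pow_mul]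
            have : (g + G + 2) * 2 = K := by rw [hK]; ring
            rw [this]
            exact_mod_cast hq.le
          have hzpow : 0 < (z : ℝ) ^ (g + G + 2) := by positivity
          have hexp : Real.exp (((g : ℝ) + G) * (Real.log z + C2)) =
              (z : ℝ) ^ (g + G) * Real.exp ((g + G) * C2) := by
            rw [mul_add, Real.exp_add]
            congr 1
            have : ((g : ℝ) + G) * Real.log z = ((g + G : ℕ) : ℝ) * Real.log z := by push_cast; ring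
            rw [this, ← Real.log_pow, Real.exp_log (by positivity)]
          have hsq0 : 0 < Real.sqrt (qx P x : ℕ) := lt_of_lt_of_le hzpow hsq
          have hbd : Real.exp (((g : ℝ) + G) * (Real.log z + C2)) * (2 * (G : ℝ)) ^ (4 * G ^ 2) /
              Real.sqrt (qx P x : ℕ) ≤ 1 / z := by
            rw [hexp, div_le_div_iff₀ hsq0 (by linarith), one_mul]
            refine le_trans ?_ hsq
            calc (z : ℝ) ^ (g + G) * Real.exp ((g + G) * C2) * (2 * (G : ℝ)) ^ (4 * G ^ 2) * z =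
                (z : ℝ) ^ (g + G) * CC0 * z := by rw [hCC0]; ring
              _ ≤ (z : ℝ) ^ (g + G) * z * z := by gcongr
              _ = _ := by ring
          have h1 := hfar.1.trans hbd
          have h2 := hfar.2.trans hbd
          have h3 : |Cf P (s * Real.log z) g T x * Vd T Q l1| ≤ 1 / z * μs := by
            rw [abs_mul]
            exact mul_le_mul h1 hmu1.1 (abs_nonneg _) (by positivity)
          have h4 : |Bf P (s * Real.log z) g T x * Vd T Q l2| ≤ 1 / z * μs := by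
            rw [abs_mul]
            exact mul_le_mul h2 hmu2.1 (abs_nonneg _) (by positivity)
          have h5 := (abs_le.1 h3).1
          have h6 := (abs_le.1 h4).2
          have h7 : -(2 * μs / z) ≤ Cf P (s * Real.log z) g T x * Vd T Q l1 -
              Bf P (s * Real.log z) g T x * Vd T Q l2 := by
            have e' : 2 * μs / z = 1 / z * μs + 1 / z * μs := by ring
            rw [e']
            linarith
          have h8 := mul_le_mul_of_nonneg_right h7 hen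
          linarith
      · have hn2 : ¬ (qx P x ≤ R ∧ ∀ p ∈ Q, x p = 0) := fun h => hqR h.1
        rw [if_neg hn2, sub_zero]
        push Not at hqR
        have hx0 : x ≠ fun _ => 0 := by
          intro h
          rw [h, hq1] at hqR
          omega
        rw [if_neg hx0, Cf_zero P hP T g x z s (by omega) hsn hPz (by rw [← hR]; exact hqR),
          Bf_zero P hP T g x z s (by omega) hsn (by rw [← hR]; exact hqR)]
        simp
    · -- some large prime
      have hn2 : ¬ (qx P x ≤ R ∧ ∀ p ∈ Q, x p = 0) := fun h => hxQ h.2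
      have hx0 : x ≠ fun _ => 0 := by
        intro h
        apply hxQ
        intro p _
        rw [h]
      rw [if_neg hn2, if_neg hx0, sub_zero, zero_sub]
      push Not at hxQ
      obtain ⟨p, hp, hxp⟩ := hxQ
      have hqz := qx_gt Q z hQ x p hp hxp
      by_cases hqR : qx P x ≤ R
      · by_cases hqD : qx Q x ≤ D
        · have hp3 : qx P x ≤ R ∧ z < qx Q x ∧ qx Q x ≤ D := ⟨hqR, hqz, hqD⟩
          rw [if_pos hp3]
          have hfar := far2 P hP T g hgR hT x (s * Real.log z) G (Real.log (Real.log z) + C2) (4 * G ^ 2) hL hGR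
            (by push_cast; exact le_rfl) hm2
          have hexp : Real.exp (((g : ℝ) + G) * (Real.log (Real.log z) + C2)) =
              Real.log z ^ (g + G) * Real.exp ((g + G) * C2) := by
            rw [mul_add, Real.exp_add]
            congr 1
            have : ((g : ℝ) + G) * Real.log (Real.log z) = ((g + G : ℕ) : ℝ) * Real.log (Real.log z) := by
              push_cast; ring
            rw [this, ← Real.log_pow, Real.exp_log (by positivity)]
          have hsq1 : 1 ≤ Real.sqrt (qx P x : ℕ) := by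
            rw [Real.one_le_sqrt]
            exact_mod_cast qx_pos P hP x
          have hbd : Real.exp (((g : ℝ) + G) * (Real.log (Real.log z) + C2)) * (2 * (G : ℝ)) ^ (4 * G ^ 2) /
              Real.sqrt (qx P x : ℕ) ≤ F := by
            rw [hexp]
            have e : Real.log z ^ (g + G) * Real.exp ((g + G) * C2) * (2 * (G : ℝ)) ^ (4 * G ^ 2) =
                Real.log z ^ (g + G) * CC0 := by rw [hCC0]; ring
            rw [e]
            exact (div_le_self (by positivity) hsq1).trans hzF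
          have h1 := hfar.1.trans hbd
          have h2 := hfar.2.trans hbd
          have hq0 : (0 : ℝ) < (qx Q x : ℕ) := by exact_mod_cast (by omega : 0 < qx Q x)
          have h3 : |Cf P (s * Real.log z) g T x * mu T Q l1 x| ≤ F * (μs / (qx Q x : ℕ)) := by
            rw [abs_mul]
            exact mul_le_mul h1 hmu1.1 (abs_nonneg _) hFpos.le
          have h4 : |Bf P (s * Real.log z) g T x * mu T Q l2 x| ≤ F * (μs / (qx Q x : ℕ)) := by
            rw [abs_mul]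
            exact mul_le_mul h2 hmu2.1 (abs_nonneg _) hFpos.le
          have h5 := (abs_le.1 h3).1
          have h6 := (abs_le.1 h4).2
          have h7 : -(2 * F * μs / (qx Q x : ℕ)) ≤ Cf P (s * Real.log z) g T x * mu T Q l1 x -
              Bf P (s * Real.log z) g T x * mu T Q l2 x := by
            have e' : 2 * F * μs / (qx Q x : ℕ) = F * (μs / (qx Q x : ℕ)) + F * (μs / (qx Q x : ℕ)) := by ring
            rw [e']
            linarith
          have h8 := mul_le_mul_of_nonneg_right h7 hen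
          have e2 : 2 * F * μs * (En A (P ∪ Q) x / (qx Q x : ℕ)) = 2 * F * μs / (qx Q x : ℕ) * En A (P ∪ Q) x := by
            ring
          rw [e2]
          linarith
        · push Not at hqD
          have hn3 : ¬ (qx P x ≤ R ∧ z < qx Q x ∧ qx Q x ≤ D) := by
            rintro ⟨_, _, h⟩
            omega
          rw [if_neg hn3, hmu1.2 hqD, hmu2.2 hqD]
          simp
      · have hn3 : ¬ (qx P x ≤ R ∧ z < qx Q x ∧ qx Q x ≤ D) := fun h => hqR h.1
        rw [if_neg hn3]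
        push Not at hqR
        rw [Cf_zero P hP T g x z s (by omega) hsn hPz (by rw [← hR]; exact hqR),
          Bf_zero P hP T g x z s (by omega) hsn (by rw [← hR]; exact hqR)]
        simp
  -- summation
  have hls := large A (P ∪ Q) hPR M R hA hR1 (X.filter (fun x => qx P x ≤ R ∧ ∀ p ∈ Q, x p = 0))
    (fun x hx => hX1 x (mem_filter.1 hx).1) (fun x hx => hX2 x (mem_filter.1 hx).1)
    (fun x hx => by
      have h := (mem_filter.1 hx).2
      rw [qx_union P Q hPQ, qx_one Q x h.2, mul_one]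
      exact h.1)
  have hsb := sum_bound A P Q hP hQ' hPQ M R D z (by omega) hR1 hA X hX1 hX2
  have hA2 : 0 ≤ (A.card : ℝ) ^ 2 := sq_nonneg _
  calc c₀ / (100 * k) * (A.card : ℝ) ^ 2 - M * A.card / W ≤
      7 * c₀ / 64 / k * (A.card : ℝ) ^ 2 - 2 * μs / z * (6 * ((M : ℝ) + (R : ℝ) ^ 2) * A.card) -
        2 * F * μs * (12 * A.card * ((M : ℝ) / z + (R : ℝ) ^ 2 * D)) := by
        have hF1 : 1 ≤ F := by
          rw [hF]
          exact Real.one_le_rpow (by linarith) (by norm_num)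
        exact num_final5 c₀ k A.card M z ((R : ℝ) ^ 2) D μs F W hc₀ hkR hAc hM0 hz3R hμ0 hF1 hWpos hF2 hzμ hR2D
          hRDM hMz
    _ ≤ 7 * c₀ / 64 / k * (A.card : ℝ) ^ 2 -
        2 * μs / z * ∑ x ∈ X.filter (fun x => qx P x ≤ R ∧ ∀ p ∈ Q, x p = 0), En A (P ∪ Q) x -
        2 * F * μs * ∑ x ∈ X.filter (fun x => qx P x ≤ R ∧ z < qx Q x ∧ qx Q x ≤ D),
          En A (P ∪ Q) x / (qx Q x : ℕ) := by
        have h1 := mul_le_mul_of_nonneg_left hls (by positivity : 0 ≤ 2 * μs / (z : ℝ))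
        have h2 := mul_le_mul_of_nonneg_left hsb (by positivity : 0 ≤ 2 * F * μs)
        linarith
    _ = ∑ x ∈ X, ((if x = (fun _ => 0) then 7 * c₀ / 64 / k * (A.card : ℝ) ^ 2 else 0) -
      (if qx P x ≤ R ∧ (∀ p ∈ Q, x p = 0) then 2 * μs / z * En A (P ∪ Q) x else 0) -
      (if qx P x ≤ R ∧ z < qx Q x ∧ qx Q x ≤ D then 2 * F * μs * (En A (P ∪ Q) x / (qx Q x : ℕ)) else 0)) := by
        rw [sum_sub_distrib, sum_sub_distrib, sum_ite_eq' X (fun _ => 0), if_pos hX3, ← sum_filter, ← sum_filter,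
          ← mul_sum, ← mul_sum]
    _ ≤ _ := sum_le_sum hpt

open Classical in
/-- the case `g = 2`, `c₀ = 0.03`, `s = 100` -/
theorem twisted100 : ∀ k : ℕ, 1 ≤ k → ∃ z₀ : ℕ, 3 ≤ z₀ ∧
    ∀ z : ℕ, z₀ ≤ z → ∀ M D : ℕ, D ≤ z ^ k → z ^ (4 * 100 + 4) * D ≤ M →
    ∀ T : ℕ → ℤ → Prop, (∀ p : ℕ, ∀ n m : ℤ, (p : ℤ) ∣ n - m → (T p n ↔ T p m)) →
      (∀ p : ℕ, ∀ n : ℤ, T p n ↔ T p (-n)) → (∀ p : ℕ, p.Prime → ¬ T p 0) →
      (∀ p : ℕ, p.Prime → ((range p).filter (fun r : ℕ => T p r)).card ≤ 2) →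
    ∀ Q : Finset ℕ, (∀ p ∈ Q, p.Prime ∧ z < p) → ∑ p ∈ Q, 1 / (p : ℝ) ≤ k →
    ∀ l1 l2 : Finset ℕ → ℝ, (∀ U ⊆ Q, |l1 U| ≤ k ∧ |l2 U| ≤ k) →
      (∀ U ⊆ Q, D < ∏ p ∈ U, p → l1 U = 0 ∧ l2 U = 0) →
      0 ≤ Vd T Q l2 → Vd T Q l2 ≤ (1 - (0.03 : ℝ)) * Vd T Q l1 → 1 / (k : ℝ) ≤ Vd T Q l1 →
    ∀ A ⊆ Icc 1 M, (0.03 : ℝ) / (100 * k) * (A.card : ℝ) ^ 2 - M * A.card / (z : ℝ) ^ (4 / 5 : ℝ) ≤
      PS A (fun n => Lam (Pz z) (((100 : ℕ) : ℝ) * Real.log z) ((2 : ℕ) : ℝ) T n ^ 2 *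
        ((1 - ∑ q ∈ Pz z, (if T q n then (1 : ℝ) else 0)) * Sv T Q l1 n - Sv T Q l2 n)) :=
  twistedS 2 (by norm_num) 0.03 (by norm_num) 0.01 (by norm_num) 100 (by norm_num) (by norm_num)

end Pool.Agent.H97.P3b
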